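import Pool.Agent.Y30.BI.Main

/-!
# MP_d9d12d_lc: Borel images, hereditary version, with values in the Cantor space and in `ℝ^n`

Under CH, for every `s ∈ [0,1]` there is a set `E` in the Cantor space of Hausdorff dimension `s`
all of whose Borel images in the Cantor space have dimension at most `s` (this is the answer to the
question) and all of whose Borel images in `ℝ^n` have dimension at most `n s`. For `0 < s < 1` the
set `E` is moreover uncountable, every uncountable subset of it has positive `s`-dimensional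
Hausdorff measure and Hausdorff dimension `s`, and for every Borel map `f` there is one set `G` of
dimension at most `s` which contains `f x` for all but countably many `x ∈ E`.
-/

set_option autoImplicit false

open Set MeasureTheory
open scoped ENNReal NNReal

namespace Pool.Agent.Results.MP_d9d12d_lc.HereditaryBorelImages

open Pool.Agent.Helper747.BL (cantorMetric)

attribute [local instance] cantorMetric

/-- a map whose preimages of open sets are Borel is measurable -/
lemma meas_of_borel {Y : Type*} [TopologicalSpace Y] [MeasurableSpace Y] [BorelSpace Y]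
    {f : (ℕ → Bool) → Y}
    (hf : ∀ U : Set Y, IsOpen U → @MeasurableSet _ (borel (ℕ → Bool)) (f ⁻¹' U)) :
    Measurable f := by
  refine measurable_of_isOpen fun U hU => ?_
  have h4 := hf U hU
  have h5 : (borel (ℕ → Bool)) = MeasurableSpace.pi := BorelSpace.measurable_eq.symm
  rw [h5] at h4
  exact h4

lemma euclid_image {E : Set (ℕ → Bool)} {s : ℝ≥0}
    (h : ∀ (n : ℕ) (f : (ℕ → Bool) → Fin n → ℝ), Measurable f → dimH (f '' E) ≤ n * s)
    (n : ℕ) (f : (ℕ → Bool) → EuclideanSpace ℝ (Fin n)) (hf : Measurable f) :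
    dimH (f '' E) ≤ n * s := by
  have h1 := h n (fun x => EuclideanSpace.equiv (Fin n) ℝ (f x))
    ((EuclideanSpace.equiv (Fin n) ℝ).continuous.measurable.comp hf)
  have h2 : (fun x => EuclideanSpace.equiv (Fin n) ℝ (f x)) '' E =
      (EuclideanSpace.equiv (Fin n) ℝ) '' (f '' E) := by rw [image_image]
  rwa [h2, ContinuousLinearEquiv.dimH_image] at h1

/-- Under CH, for every `s ∈ [0,1]` there is a set `E` in the Cantor space (with the metric `2^-n`,
`n` the first difference) of Hausdorff dimension `s` such that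

* every Borel image of `E` in the Cantor space has Hausdorff dimension at most `s`;
* for every `n`, every Borel image of `E` in Euclidean `n`-space has Hausdorff dimension at most
  `n s`;
* if `0 < s < 1`: `E` is uncountable; every uncountable subset of `E` has nonzero `s`-dimensional
  Hausdorff (outer) measure and Hausdorff dimension `s`; and for every Borel map `f` of the Cantor
  space to itself there is a set `G` of Hausdorff dimension at most `s` with `f x ∈ G` for all
  `x ∈ E` up to countably many. -/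
theorem result (CH : (Cardinal.continuum : Cardinal.{0}) = Cardinal.aleph 1)
    (s : ℝ) (hs : s ∈ Set.Icc (0 : ℝ) 1) :
    letI : MetricSpace (ℕ → Bool) := PiNat.metricSpaceOfDiscreteUniformity (fun _ => rfl)
    ∃ E : Set (ℕ → Bool), dimH E = ENNReal.ofReal s ∧
      (∀ f : (ℕ → Bool) → (ℕ → Bool),
        (∀ U : Set (ℕ → Bool), IsOpen U → @MeasurableSet _ (borel (ℕ → Bool)) (f ⁻¹' U)) →
        dimH (f '' E) ≤ ENNReal.ofReal s) ∧
      (∀ (n : ℕ) (f : (ℕ → Bool) → EuclideanSpace ℝ (Fin n)),
        (∀ U : Set (EuclideanSpace ℝ (Fin n)), IsOpen U →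
          @MeasurableSet _ (borel (ℕ → Bool)) (f ⁻¹' U)) →
        dimH (f '' E) ≤ n * ENNReal.ofReal s) ∧
      (0 < s → s < 1 → ¬ E.Countable ∧
        (∀ E' : Set (ℕ → Bool), E' ⊆ E → ¬ E'.Countable →
          Measure.hausdorffMeasure s E' ≠ 0 ∧ dimH E' = ENNReal.ofReal s) ∧
        ∀ f : (ℕ → Bool) → (ℕ → Bool),
          (∀ U : Set (ℕ → Bool), IsOpen U → @MeasurableSet _ (borel (ℕ → Bool)) (f ⁻¹' U)) →
          ∃ G : Set (ℕ → Bool), dimH G ≤ ENNReal.ofReal s ∧
            {x | x ∈ E ∧ f x ∉ G}.Countable) := by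
  rcases hs.1.eq_or_lt with h0 | h0
  · -- `s = 0`
    subst h0
    refine ⟨{fun _ => false}, ?_, ?_, ?_, fun h => absurd h (lt_irrefl _)⟩
    · rw [dimH_singleton]; simp
    · intro f _
      rw [Set.image_singleton, dimH_singleton]; exact zero_le
    · intro n f _
      rw [Set.image_singleton, dimH_singleton]; exact zero_le
  rcases hs.2.eq_or_lt with h1 | h1
  · -- `s = 1`
    subst h1
    obtain ⟨E, h2, h3⟩ := Pool.Agent.Helper747.BL.main CH (le_refl (1 : ℝ≥0))
    have h4 : ((1 : ℝ≥0) : ℝ≥0∞) = ENNReal.ofReal 1 := by simp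
    refine ⟨E, by rw [h2, h4], ?_, ?_, fun _ h => absurd h (lt_irrefl _)⟩
    · intro f hf
      rw [← h4]
      exact h3 f (meas_of_borel hf)
    · intro n f hf
      rw [← h4]
      exact euclid_image (fun n f hf => Pool.Agent.Y30.BI.dim_images h3 n f hf) n f
        (meas_of_borel hf)
  obtain ⟨t, rfl⟩ : ∃ t : ℝ≥0, (t : ℝ) = s := ⟨⟨s, h0.le⟩, rfl⟩
  have ht0 : 0 < t := by exact_mod_cast h0
  have ht1 : t < 1 := by exact_mod_cast h1
  obtain ⟨E, h2, h3, h4⟩ := Pool.Agent.Y30.BI.main_hered ht0 ht1 CH
  have h5 : ENNReal.ofReal (t : ℝ) = t := ENNReal.ofReal_coe_nnreal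
  rw [h5]
  have himg : ∀ f : (ℕ → Bool) → (ℕ → Bool), Measurable f → dimH (f '' E) ≤ t := by
    intro f hf
    obtain ⟨G, hG1, hG2⟩ := h3 f hf
    have hsub : f '' E ⊆ G ∪ f '' {x | x ∈ E ∧ f x ∉ G} := by
      rintro _ ⟨x, hx, rfl⟩
      by_cases h : f x ∈ G
      · exact Or.inl h
      · exact Or.inr ⟨x, ⟨hx, h⟩, rfl⟩
    refine (dimH_mono hsub).trans ?_
    rw [dimH_union, dimH_countable (hG2.image f)]
    exact max_le hG1 zero_le
  refine ⟨E, h2, fun f hf => himg f (meas_of_borel hf), ?_, fun _ _ => ⟨?_, ?_, ?_⟩⟩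
  · intro n f hf
    exact euclid_image (fun n f hf => Pool.Agent.Y30.BI.dim_images himg n f hf) n f
      (meas_of_borel hf)
  · intro hc
    have h6 := dimH_countable hc
    rw [h2] at h6
    exact absurd (ENNReal.coe_eq_zero.1 h6) ht0.ne'
  · intro E' hE' hc
    have h6 := h4 E' hE' hc
    exact ⟨h6, le_antisymm ((dimH_mono hE').trans h2.le) (le_dimH_of_hausdorffMeasure_ne_zero h6)⟩
  · intro f hf
    exact h3 f (meas_of_borel hf)

end Pool.Agent.Results.MP_d9d12d_lc.HereditaryBorelImages
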